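import Pool.Agent.Helper47.Geo.Defs

/-!
MP_c38b8d_lc: the algebraic theories for which every redundant sentence is true in the generic model.
-/

set_option autoImplicit false

namespace Pool.Agent.Helper47.Geo

open Pool.Agent.Helper28.Geo

variable {S : Sig}

/-- excluded middle for inhabitedness -/
def inh (S : Sig) : Form S 0 :=
  .sup Bool (fun b => match b with
    | true => .ex .top
    | false => .imp (.ex .top) .bot)

theorem inh_redundant (E : Theory S) : Redundant E (inh S) := by
  intro n p q hp hq h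
  apply completeness hp hq
  intro A hA
  have h1 := soundness A (Ax := axioms E ∪ {inh S}) (by
    rintro a (ha | ha)
    · exact sat_axioms A hA.1 a ha
    · rw [Set.mem_singleton_iff] at ha
      subst ha
      by_cases hx : Nonempty A.carrier
      · exact ⟨true, hx.some, trivial⟩
      · exact ⟨false, fun ⟨x, _⟩ => hx ⟨x⟩⟩) h Fin.elim0 (by simp)
  rw [sat_close] at h1
  exact h1

theorem constant_of_closed : (t : Term S 0) → ∃ f : S.Op, S.ar f = 0
  | .var i => i.elim0
  | .app f a => by
    rcases Nat.eq_zero_or_pos (S.ar f) with h | h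
    · exact ⟨f, h⟩
    · exact constant_of_closed (a ⟨0, h⟩)

/-- the term model in `n` variables without equations -/
noncomputable abbrev Fr (E : Theory S) (n : ℕ) : Alg S :=
  TM (axioms E) (eqs ([] : List (Term S n × Term S n)))

theorem Fr_isFP (E : Theory S) (n : ℕ) : IsFP E (Fr E n) := TM_isFP E []

/-- homomorphisms between the free models -/
noncomputable def FrHom (E : Theory S) {n m : ℕ} (τ : Fin n → Term S m) : Hom (Fr E n) (Fr E m) :=
  TMhom (axioms E) (eqs []) (eqs []) τ (by simp [eqs])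

theorem constant_of_inh (E : Theory S) (h : TrueInGeneric E (inh S)) : ∃ f : S.Op, S.ar f = 0 := by
  obtain ⟨i, hi⟩ := h (Fr E 0) (Fr_isFP E 0)
  cases i with
  | true =>
    obtain ⟨x, _⟩ := hi
    obtain ⟨t, _⟩ := cls_surj (axioms E) x
    exact constant_of_closed t
  | false =>
    refine (hi (Fr E 1) (Fr_isFP E 1) (FrHom E (fun i => i.elim0)) ?_).elim
    exact ⟨cls (axioms E) _ (.var 0), trivial⟩

theorem allEq_of_dec (E : Theory S) (h : TrueInGeneric E (dec S)) : Prf (axioms E) [] (allEq S) := by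
  have h1 := (dec_true_iff E).1 h (Fr E 2) (Fr E 1) (Fr_isFP E 2) (Fr_isFP E 1)
    (FrHom E (fun _ => Term.var 0))
  have h2 : cls (axioms E) (eqs ([] : List (Term S 2 × Term S 2))) (.var 0) =
      cls (axioms E) (eqs ([] : List (Term S 2 × Term S 2))) (.var 1) := h1 rfl
  rw [cls_eq] at h2
  exact Prf.allI (Prf.allI h2)

/-! ### The one-element theory -/

theorem prf_eq_of_allEq {Ax : Set (Form S 0)} (h : Prf Ax [] (allEq S)) {n : ℕ}
    (G : List (Form S n)) (s t : Term S n) : Prf Ax G (.eq s t) := by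
  have h1 : Prf Ax G ((allEq S).subst (Fin.elim0 : Fin 0 → Term S n)) :=
    (h.subst (Fin.elim0 : Fin 0 → Term S n)).weaken (by simp)
  have h2 : Prf Ax G ((Form.eq (.var 0) (.var 1) : Form S 2).close.subst
      (Fin.elim0 : Fin 0 → Term S n)) := h1
  exact Prf.of_close (Form.eq (.var 0) (.var 1) : Form S 2) ![s, t] h2

/-- a one-element structure -/
def One (A : Alg S) : Prop := Nonempty A.carrier ∧ ∀ x y : A.carrier, x = y

/-- hypotheses under which all terms are equal, in a nonempty context -/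
def Col (Ax : Set (Form S 0)) {m : ℕ} (G : List (Form S m)) : Prop :=
  Nonempty (Term S m) ∧ ∀ (m' : ℕ) (τ : Fin m → Term S m') (s t : Term S m'),
    Prf Ax (G.map (Form.subst τ)) (.eq s t)

theorem Col.wk {Ax : Set (Form S 0)} {m : ℕ} {G : List (Form S m)} (h : Col Ax G) :
    Col Ax (G.map Form.wk) := by
  refine ⟨h.1.map Term.wk, fun m' τ s t => ?_⟩
  have h1 := h.2 m' (fun i => τ i.succ) s t
  have h2 : (G.map Form.wk).map (Form.subst τ) = G.map (Form.subst (fun i => τ i.succ)) := by
    rw [List.map_map]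
    apply List.map_congr_left
    intro p _
    change (p.subst _).subst τ = _
    rw [Form.subst_subst]
    rfl
  rw [h2]
  exact h1

theorem Col.eq {Ax : Set (Form S 0)} {m : ℕ} {G : List (Form S m)} (h : Col Ax G)
    (s t : Term S m) : Prf Ax G (.eq s t) := by
  have h1 := h.2 m Term.var s t
  have h2 : G.map (Form.subst Term.var) = G := by
    conv_rhs => rw [← List.map_id G]
    apply List.map_congr_left
    intro p _
    exact Form.subst_var p
  rwa [h2] at h1

theorem decide_one {Ax : Set (Form S 0)} (A : Alg S) (hA : One A) {n : ℕ} (p : Form S n) :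
    ∀ r : Fin n → A.carrier,
      (Sat A r p → ∀ (m : ℕ) (G : List (Form S m)) (s : Fin n → Term S m), Col Ax G →
        Prf Ax G (p.subst s)) ∧
      (¬ Sat A r p → ∀ (m : ℕ) (G : List (Form S m)) (s : Fin n → Term S m), Col Ax G →
        Prf Ax (p.subst s :: G) .bot) := by
  obtain ⟨⟨a₀⟩, hsub⟩ := hA
  have hw : ∀ {m : ℕ} {G : List (Form S m)} {p q : Form S m}, Prf Ax (p :: G) .bot →
      Prf Ax (p :: q :: G) .bot := by
    intro m G p q h
    refine h.weaken fun g hg => ?_
    rcases List.mem_cons.1 hg with h | h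
    · rw [h]; exact List.mem_cons_self
    · exact List.mem_cons_of_mem _ (List.mem_cons_of_mem _ h)
  induction p with
  | eq s t =>
    intro r
    exact ⟨fun _ m G σ hG => hG.eq _ _, fun h => (h (hsub _ _)).elim⟩
  | top => intro r; exact ⟨fun _ _ _ _ _ => Prf.topI, fun h => (h trivial).elim⟩
  | bot =>
    intro r
    exact ⟨fun h => h.elim, fun _ m G σ _ => Prf.hyp List.mem_cons_self⟩
  | and p q ihp ihq =>
    intro r
    refine ⟨fun h m G σ hG => Prf.andI ((ihp r).1 h.1 m G σ hG) ((ihq r).1 h.2 m G σ hG),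
      fun h m G σ hG => ?_⟩
    by_cases h1 : Sat A r p
    · have h2 : ¬ Sat A r q := fun h2 => h ⟨h1, h2⟩
      exact Prf.cut (Prf.andE2 (p := p.subst σ) (Prf.hyp List.mem_cons_self))
        (hw ((ihq r).2 h2 m G σ hG))
    · exact Prf.cut (Prf.andE1 (q := q.subst σ) (Prf.hyp List.mem_cons_self))
        (hw ((ihp r).2 h1 m G σ hG))
  | imp p q ihp ihq =>
    intro r
    refine ⟨fun h m G σ hG => ?_, fun h m G σ hG => ?_⟩
    · by_cases h1 : Sat A r p
      · exact Prf.impI (((ihq r).1 (h h1) m G σ hG).weaken (List.subset_cons_self _ _))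
      · exact Prf.impI (Prf.botE ((ihp r).2 h1 m G σ hG))
    · have h1 : Sat A r p := by
        by_contra h1
        exact h (fun h2 => (h1 h2).elim)
      have h2 : ¬ Sat A r q := fun h2 => h (fun _ => h2)
      exact Prf.cut (Prf.impE (p := p.subst σ) (Prf.hyp List.mem_cons_self)
        (((ihp r).1 h1 m G σ hG).weaken (List.subset_cons_self _ _)))
        (hw ((ihq r).2 h2 m G σ hG))
  | sup I p ih =>
    intro r
    refine ⟨fun h m G σ hG => ?_, fun h m G σ hG => ?_⟩
    · obtain ⟨i, hi⟩ := h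
      exact Prf.supI (p := fun i => (p i).subst σ) i ((ih i r).1 hi m G σ hG)
    · exact Prf.supE (p := fun i => (p i).subst σ) (Prf.hyp List.mem_cons_self)
        (fun i => hw ((ih i r).2 (fun hi => h ⟨i, hi⟩) m G σ hG))
  | all p ih =>
    intro r
    refine ⟨fun h m G σ hG => Prf.allI ((ih (Fin.cons a₀ r)).1 (h a₀) _ _ (lift σ) hG.wk),
      fun h m G σ hG => ?_⟩
    have h1 : ¬ Sat A (Fin.cons a₀ r) p := by
      intro h1
      apply h
      intro b
      rw [hsub b a₀]
      exact h1
    obtain ⟨t₀⟩ := hG.1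
    have h2 := (ih (Fin.cons a₀ r)).2 h1 m G (Fin.cases t₀ σ) hG
    rw [← Form.lift_inst] at h2
    exact Prf.cut (Prf.allE t₀ (Prf.hyp List.mem_cons_self)) (hw h2)
  | ex p ih =>
    intro r
    refine ⟨fun h m G σ hG => ?_, fun h m G σ hG => ?_⟩
    · obtain ⟨b, hb⟩ := h
      obtain ⟨t₀⟩ := hG.1
      have h2 := (ih (Fin.cons b r)).1 hb m G (Fin.cases t₀ σ) hG
      rw [← Form.lift_inst] at h2
      exact Prf.exI t₀ h2
    · have h1 : ¬ Sat A (Fin.cons a₀ r) p := fun h1 => h ⟨a₀, h1⟩
      have h2 := (ih (Fin.cons a₀ r)).2 h1 _ _ (lift σ) hG.wk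
      exact Prf.exE (p := p.subst (lift σ)) (Prf.hyp List.mem_cons_self)
        (h2.weaken (List.cons_subset_cons _ (List.map_subset _ (List.subset_cons_self _ _))))

/-- In the presence of `x = y` and a constant, all finitely presented models are one-element
structures. -/
theorem one_of_model {E : Theory S} (hE : Prf (axioms E) [] (allEq S)) (c : S.Op) (hc : S.ar c = 0)
    (A : Alg S) (hA : IsModel E A) : One A := by
  refine ⟨⟨A.op c (fun j => (Fin.cast hc j).elim0)⟩, fun x y => ?_⟩
  have h1 := soundness A (sat_axioms A hA) hE Fin.elim0 (by simp)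
  exact h1 y x

theorem forces_one {E : Theory S} (hE : Prf (axioms E) [] (allEq S)) (c : S.Op) (hc : S.ar c = 0)
    {n : ℕ} (p : Form S n) : ∀ (A B : Alg S) (_ : IsFP E A) (_ : IsFP E B) (r : Fin n → A.carrier)
    (s : Fin n → B.carrier), Forces E A r p ↔ Sat B s p := by
  have one : ∀ A : Alg S, IsFP E A → One A := fun A hA => one_of_model hE c hc A hA.1
  induction p with
  | eq a b => intro A B hA hB r s; exact ⟨fun _ => (one B hB).2 _ _, fun _ => (one A hA).2 _ _⟩
  | top => intro A B hA hB r s; exact Iff.rfl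
  | bot => intro A B hA hB r s; exact Iff.rfl
  | and p q ihp ihq =>
    intro A B hA hB r s
    exact and_congr (ihp A B hA hB r s) (ihq A B hA hB r s)
  | imp p q ihp ihq =>
    intro A B hA hB r s
    constructor
    · intro h hp
      have h1 := h A hA (Hom.id A) ((ihp A B hA hB _ s).2 hp)
      exact (ihq A B hA hB _ s).1 h1
    · intro h C hC k hp
      exact (ihq C B hC hB _ s).2 (h ((ihp C B hC hB _ s).1 hp))
  | sup I p ih =>
    intro A B hA hB r s
    exact exists_congr (fun i => ih i A B hA hB r s)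
  | all p ih =>
    intro A B hA hB r s
    constructor
    · intro h b
      obtain ⟨⟨a⟩, _⟩ := one A hA
      exact (ih A B hA hB _ _).1 (h A hA (Hom.id A) a)
    · intro h C hC k x
      obtain ⟨⟨b⟩, _⟩ := one B hB
      exact (ih C B hC hB _ _).2 (h b)
  | ex p ih =>
    intro A B hA hB r s
    constructor
    · rintro ⟨a, ha⟩
      obtain ⟨⟨b⟩, _⟩ := one B hB
      exact ⟨b, (ih A B hA hB _ _).1 ha⟩
    · rintro ⟨b, hb⟩
      obtain ⟨⟨a⟩, _⟩ := one A hA
      exact ⟨a, (ih A B hA hB _ _).2 hb⟩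

theorem prf_mono {Ax Ax' : Set (Form S 0)} (hA : Ax ⊆ Ax') {n : ℕ} {G : List (Form S n)}
    {p : Form S n} (h : Prf Ax G p) : Prf Ax' G p := by
  induction h with
  | ax h => exact Prf.ax (hA h)
  | hyp h => exact Prf.hyp h
  | topI => exact Prf.topI
  | botE _ ih => exact Prf.botE ih
  | andI _ _ ih1 ih2 => exact Prf.andI ih1 ih2
  | andE1 _ ih => exact Prf.andE1 ih
  | andE2 _ ih => exact Prf.andE2 ih
  | impI _ ih => exact Prf.impI ih
  | impE _ _ ih1 ih2 => exact Prf.impE ih1 ih2
  | supI i _ ih => exact Prf.supI i ih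
  | supE _ _ ih1 ih2 => exact Prf.supE ih1 ih2
  | allI _ ih => exact Prf.allI ih
  | allE t _ ih => exact Prf.allE t ih
  | exI t _ ih => exact Prf.exI t ih
  | exE _ _ ih1 ih2 => exact Prf.exE ih1 ih2
  | eqI t => exact Prf.eqI t
  | eqE p _ _ ih1 ih2 => exact Prf.eqE p ih1 ih2

theorem true_of_redundant {E : Theory S} (hE : Prf (axioms E) [] (allEq S)) (c : S.Op)
    (hc : S.ar c = 0) (a : Form S 0) (ha : Redundant E a) : TrueInGeneric E a := by
  intro A hA
  rw [forces_one hE c hc a A A hA hA Fin.elim0 Fin.elim0]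
  by_contra hn
  have hcol : Col (axioms E) ([] : List (Form S 0)) :=
    ⟨⟨.app c (fun j => (Fin.cast hc j).elim0)⟩, fun m' τ s t => prf_eq_of_allEq hE _ s t⟩
  have h0 := (decide_one A (one_of_model hE c hc A hA.1) a Fin.elim0).2 hn 0 [] Term.var hcol
  have h1 : Prf (axioms E) [a] .bot := by
    rw [Form.subst_var] at h0
    exact h0
  have h2 : Prf (axioms E ∪ {a}) [] (Form.imp .top .bot : Form S 0).close := by
    have h4 : Prf (axioms E ∪ {a}) [] (a.subst (Fin.elim0 : Fin 0 → Term S 0)) :=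
      Prf.ax (Or.inr rfl)
    have h5 : a.subst (Fin.elim0 : Fin 0 → Term S 0) = a := by
      rw [Form.subst_congr a (s' := Term.var) (fun i => i.elim0), Form.subst_var]
    rw [h5] at h4
    have h6 : Prf (axioms E ∪ {a}) [] .bot := Prf.cut h4 (prf_mono Set.subset_union_left h1)
    exact Prf.impI (Prf.botE (h6.weaken (by simp)))
  have h3 := ha 0 .top .bot trivial trivial h2
  exact soundness A (sat_axioms A hA.1) h3 Fin.elim0 (by simp) trivial

/-- the classification -/
theorem classification (E : Theory S) :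
    (∀ a, Redundant E a → TrueInGeneric E a) ↔
      (Prf (axioms E) [] (allEq S) ∧ ∃ f : S.Op, S.ar f = 0) := by
  constructor
  · intro h
    exact ⟨allEq_of_dec E (h _ (dec_redundant E)), constant_of_inh E (h _ (inh_redundant E))⟩
  · rintro ⟨hE, c, hc⟩ a ha
    exact true_of_redundant hE c hc a ha

theorem dec_true_iff_allEq (E : Theory S) :
    TrueInGeneric E (dec S) ↔ Prf (axioms E) [] (allEq S) := by
  refine ⟨allEq_of_dec E, fun h => (dec_true_iff E).2 ?_⟩
  intro A B hA _ _ x y _
  have h1 := soundness A (sat_axioms A hA.1) h Fin.elim0 (by simp)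
  exact h1 y x

/-! ### Collapsing theories -/

/-- the one-element structure -/
def oneAlg (S : Sig) : Alg S := ⟨Unit, fun _ _ => ()⟩

theorem oneAlg_isModel (E : Theory S) : IsModel E (oneAlg S) := fun _ _ _ => rfl

theorem one_oneAlg : One (oneAlg S) := ⟨⟨()⟩, fun _ _ => rfl⟩

/-- conjunction of a list -/
def conj {n : ℕ} : List (Form S n) → Form S n
  | [] => .top
  | p :: G => .and p (conj G)

theorem conj_geometric {n : ℕ} : ∀ G : List (Form S n), (∀ g ∈ G, g.Geometric) →
    (conj G).Geometric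
  | [], _ => trivial
  | p :: G, h => ⟨h p List.mem_cons_self, conj_geometric G fun g hg => h g (List.mem_cons_of_mem _ hg)⟩

theorem sat_conj (A : Alg S) {n : ℕ} (r : Fin n → A.carrier) : ∀ G : List (Form S n),
    (∀ g ∈ G, Sat A r g) → Sat A r (conj G)
  | [], _ => trivial
  | p :: G, h => ⟨h p List.mem_cons_self, sat_conj A r G fun g hg => h g (List.mem_cons_of_mem _ hg)⟩

theorem prf_conj {Ax : Set (Form S 0)} {n : ℕ} : ∀ (G H : List (Form S n)) (q : Form S n),
    Prf Ax (G ++ H) q → Prf Ax (conj G :: H) q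
  | [], H, q, h => h.weaken (List.subset_cons_self _ _)
  | p :: G, H, q, h => by
    have h1 : Prf Ax (G ++ (p :: H)) q := h.weaken (by
      intro g hg
      simp only [List.cons_append, List.mem_cons, List.mem_append] at hg ⊢
      tauto)
    have h2 := prf_conj G (p :: H) q h1
    have h3 : Prf Ax (p :: conj G :: conj (p :: G) :: H) q := h2.weaken (by
      intro g hg
      simp only [List.mem_cons] at hg ⊢
      tauto)
    have h4 : Prf Ax (conj G :: conj (p :: G) :: H) q := by
      refine Prf.cut ?_ h3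
      exact Prf.andE1 (q := conj G) (Prf.hyp (List.mem_cons_of_mem _ List.mem_cons_self))
    exact Prf.cut (Prf.andE2 (p := p) (Prf.hyp List.mem_cons_self)) h4

/-- a homomorphism from a term model -/
theorem TM_lift (E : Theory S) {n : ℕ} (R : List (Term S n × Term S n)) (C : Alg S)
    (hC : IsModel E C) (c : Fin n → C.carrier) (hc : ∀ e ∈ R, e.1.eval C c = e.2.eval C c) :
    ∃ h : Hom (TM (axioms E) (eqs R)) C, ∀ t : Term S n,
      h.toFun (cls (axioms E) (eqs R) t) = t.eval C c := by
  have key : ∀ s t : Term S n, Prf (axioms E) (eqs R) (.eq s t) → s.eval C c = t.eval C c := by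
    intro s t h
    refine soundness C (sat_axioms C hC) h c ?_
    intro g hg
    obtain ⟨e, he, rfl⟩ := List.mem_map.1 hg
    exact hc e he
  refine ⟨⟨Quotient.lift (fun t => t.eval C c) key, ?_⟩, fun t => rfl⟩
  intro f a
  obtain ⟨s, rfl⟩ := exists_rep_fun (axioms E) a
  rw [TM_op]
  rfl

theorem not_redundant_of_collapsing {E : Theory S} (hE : Collapsing E) (a : Form S 0)
    (ha : ¬ Sat (oneAlg S) Fin.elim0 a) : ¬ Redundant E a := by
  intro hr
  obtain ⟨A, ⟨_, n, R, g, hg, huniv⟩, hcol⟩ := hE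
  set R' : List (Term S (n + 1) × Term S (n + 1)) := R.map (fun e => (e.1.wk, e.2.wk)) with hR'
  have hC : Col (axioms E) (eqs R') := by
    refine ⟨⟨.var 0⟩, fun m' τ s t => ?_⟩
    set R'' : List (Term S m' × Term S m') := R'.map (fun e => (e.1.subst τ, e.2.subst τ)) with hR''
    have e1 : (eqs R').map (Form.subst τ) = eqs R'' := by
      simp only [hR'', eqs, List.map_map]
      rfl
    rw [e1, ← cls_eq]
    refine hcol _ (TM_isModel E _) ?_ _ _
    obtain ⟨h, _⟩ := huniv (TM (axioms E) (eqs R'')) (TM_isModel E _)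
      (fun i => cls (axioms E) (eqs R'') ((Term.var i.succ).subst τ)) (by
        intro e he
        rw [TM_eval, TM_eval, cls_eq]
        apply Prf.hyp
        refine List.mem_map.2 ⟨(e.1.wk.subst τ, e.2.wk.subst τ), ?_, ?_⟩
        · rw [hR'', List.mem_map]
          exact ⟨(e.1.wk, e.2.wk), List.mem_map.2 ⟨e, he, rfl⟩, rfl⟩
        · simp only [Term.wk, Term.subst_subst])
    exact ⟨h⟩
  have h1 := (decide_one (Ax := axioms E) (oneAlg S) one_oneAlg a Fin.elim0).2 ha (n + 1) (eqs R')
    Fin.elim0 hC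
  have h2 : Prf (axioms E ∪ {a}) [] (Form.imp (conj (eqs R')) .bot).close := by
    apply Prf.close
    apply Prf.impI
    apply prf_conj
    rw [List.append_nil]
    exact Prf.cut (Prf.ax (Or.inr rfl)) (prf_mono Set.subset_union_left h1)
  have hgeo : (conj (eqs R')).Geometric := by
    apply conj_geometric
    intro f hf
    obtain ⟨e, _, rfl⟩ := List.mem_map.1 hf
    trivial
  have h3 := hr (n + 1) (conj (eqs R')) .bot hgeo trivial h2
  have h4 := soundness (oneAlg S) (sat_axioms _ (oneAlg_isModel E)) h3 Fin.elim0 (by simp)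
  rw [sat_close] at h4
  refine h4 (fun _ => ()) (sat_conj _ _ _ ?_)
  intro f hf
  obtain ⟨e, _, rfl⟩ := List.mem_map.1 hf
  rfl

theorem not_dec_of_not_collapsing {E : Theory S} (hE : ¬ Collapsing E) :
    TrueInGeneric E (.imp (dec S) .bot) := by
  intro A hA B hB h H
  have hB' := hB
  obtain ⟨_, n, R, g, hg, huniv⟩ := hB'
  have h1 : ∃ C : Alg S, IsModel E C ∧ Nonempty (Hom B C) ∧ ∃ x y : C.carrier, x ≠ y := by
    by_contra hc
    apply hE
    refine ⟨B, hB, fun C hC k x y => ?_⟩
    by_contra hxy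
    exact hc ⟨C, hC, k, x, y, hxy⟩
  obtain ⟨C, hC, ⟨k⟩, x, y, hxy⟩ := h1
  -- two variables are added
  set R2 : List (Term S (n + 1 + 1) × Term S (n + 1 + 1)) :=
    R.map (fun e => (e.1.wk.wk, e.2.wk.wk)) with hR2
  set D := TM (axioms E) (eqs R2) with hD
  have hDfp : IsFP E D := TM_isFP E R2
  set R1 : List (Term S (n + 1) × Term S (n + 1)) := R.map (fun e => (e.1.wk, e.2.wk)) with hR1
  set D1 := TM (axioms E) (eqs R1) with hD1
  have hD1fp : IsFP E D1 := TM_isFP E R1
  have ew : ∀ {m : ℕ} (X : Alg S) (r : Fin (m + 1) → X.carrier)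
      (s : Term S m), s.wk.eval X r = s.eval X (fun i => r i.succ) := by
    intro m X r s
    unfold Term.wk
    rw [Term.eval_subst]
    rfl
  -- `B → D`
  obtain ⟨l, _⟩ := huniv D hDfp.1 (fun i => cls (axioms E) (eqs R2) (.var i.succ.succ)) (by
    intro e he
    rw [TM_eval, TM_eval, cls_eq]
    apply Prf.hyp
    refine List.mem_map.2 ⟨(e.1.wk.wk, e.2.wk.wk), List.mem_map.2 ⟨e, he, rfl⟩, ?_⟩
    simp only [Term.wk, Term.subst_subst]
    rfl)
  have h2 := H D hDfp l (cls (axioms E) (eqs R2) (.var 0)) D hDfp (Hom.id D)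
    (cls (axioms E) (eqs R2) (.var 1))
  obtain ⟨i, hi⟩ := h2
  cases i with
  | true =>
    have h3 : cls (axioms E) (eqs R2) (.var 1) = cls (axioms E) (eqs R2) (.var 0) := hi
    obtain ⟨u, hu⟩ := TM_lift E R2 C hC (Fin.cons x (Fin.cons y (fun i => k.toFun (g i)))) (by
      intro e he
      obtain ⟨e', he', rfl⟩ := List.mem_map.1 he
      simp only
      rw [ew _ _ e'.1.wk, ew _ _ e'.2.wk, ew _ _ e'.1, ew _ _ e'.2]
      change e'.1.eval C (fun i => k.toFun (g i)) = e'.2.eval C (fun i => k.toFun (g i))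
      rw [← Hom.map_eval, ← Hom.map_eval, hg e' he'])
    have h4 := congrArg u.toFun h3
    rw [hu, hu] at h4
    exact hxy h4.symm
  | false =>
    obtain ⟨u, hu⟩ := TM_lift E R2 D1 hD1fp.1
      (Fin.cons (cls (axioms E) (eqs R1) (.var 0)) (fun i => cls (axioms E) (eqs R1) (.var i))) (by
      intro e he
      obtain ⟨e', he', rfl⟩ := List.mem_map.1 he
      simp only
      rw [ew _ _ e'.1.wk, ew _ _ e'.2.wk]
      change Term.eval D1 (fun i => cls (axioms E) (eqs R1) (.var i)) e'.1.wk =
        Term.eval D1 (fun i => cls (axioms E) (eqs R1) (.var i)) e'.2.wk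
      rw [TM_eval, TM_eval, cls_eq]
      apply Prf.hyp
      refine List.mem_map.2 ⟨(e'.1.wk, e'.2.wk), List.mem_map.2 ⟨e', he', rfl⟩, ?_⟩
      rw [Term.subst_var, Term.subst_var])
    refine hi D1 hD1fp u ?_
    change u.toFun (cls (axioms E) (eqs R2) (.var 1)) = u.toFun (cls (axioms E) (eqs R2) (.var 0))
    rw [hu, hu]
    rfl

theorem both_iff (E : Theory S) :
    (∃ a : Form S 0, Redundant E a ∧ Redundant E (.imp a .bot)) ↔ ¬ Collapsing E := by
  constructor
  · rintro ⟨a, h1, h2⟩ hE
    by_cases ha : Sat (oneAlg S) Fin.elim0 a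
    · exact not_redundant_of_collapsing hE (.imp a .bot) (fun h => h ha) h2
    · exact not_redundant_of_collapsing hE a ha h1
  · intro hE
    exact ⟨dec S, dec_redundant E, redundant_of_true (not_dec_of_not_collapsing hE)⟩

theorem not_dec_true_of_not_collapsing {E : Theory S} (hE : ¬ Collapsing E) :
    ¬ TrueInGeneric E (dec S) := by
  intro h
  have h0 := Fr_isFP E 0
  have h1 := not_dec_of_not_collapsing hE (Fr E 0) h0 (Fr E 0) h0 (Hom.id _)
  apply h1
  have h2 : ((Hom.id (Fr E 0)).toFun ∘ (Fin.elim0 : Fin 0 → (Fr E 0).carrier)) = Fin.elim0 :=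
    funext fun i => i.elim0
  rw [h2]
  exact h _ h0

theorem not_collapsing_empty : ¬ Collapsing (∅ : Theory emptySig) :=
  (both_iff _).1 ⟨dec emptySig, dec_redundant _, redundant_of_true not_dec_true⟩

theorem not_dec_iff (E : Theory S) :
    TrueInGeneric E (.imp (dec S) .bot) ↔ ¬ Collapsing E :=
  ⟨fun h => (both_iff E).1 ⟨dec S, dec_redundant E, redundant_of_true h⟩,
    not_dec_of_not_collapsing⟩

end Pool.Agent.Helper47.Geo
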