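import Pool.Agent.Helper28.Geo.Force

/-!
MP_c38b8d_lc: two properties of algebraic theories.
-/

set_option autoImplicit false

namespace Pool.Agent.Helper47.Geo

open Pool.Agent.Helper28.Geo

/-- All elements are equal: for all x, y, x = y. -/
def allEq (S : Sig) : Form S 0 := .all (.all (.eq (.var 0) (.var 1)))

/-- `E` is collapsing: some finitely presented model `A` of `E` (that is, some finite system of
equations in finitely many unknowns) has the property that every model with a homomorphism from `A`
(every model in which the system has a solution) has at most one element. -/
def Collapsing {S : Sig} (E : Theory S) : Prop :=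
  ∃ A : Alg S, IsFP E A ∧ ∀ B : Alg S, IsModel E B → Nonempty (Hom A B) → ∀ x y : B.carrier, x = y

end Pool.Agent.Helper47.Geo
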